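import Pool.Agent.V5helper49.LR.Stm2

/-!
# Project LR, job MAS: the mass of the removing primes
-/

set_option autoImplicit false

namespace Pool.Agent.V5helper31.LR

open Finset Filter Topology
open Pool.Agent.V5helper49.LR
open Pool.Agent.V5helper42.RS (W W_succ W_pos W_mono W_one_le W_upper)

lemma W_lower : ∃ c : ℝ, 0 < c ∧ ∀ᶠ n : ℕ in atTop, c * Real.log n ≤ W n := by
  refine ⟨Real.exp Real.eulerMascheroniConstant / 2, by positivity, ?_⟩
  have h := Pool.Agent.H305R2.mertens_three.eventually (lt_mem_nhds (half_lt_self (Real.exp_pos _)))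
  filter_upwards [h, eventually_gt_atTop 1] with n hn hn1
  have hl : 0 < Real.log n := Real.log_pos (by exact_mod_cast hn1)
  rw [lt_div_iff₀ hl] at hn
  exact hn.le

lemma W_step (w : ℕ) (hw : 1 ≤ w) (Y : ℕ) (hY : w ≤ Y) :
    W Y ≤ W w * Real.exp (∑ p ∈ (Ioc w Y).filter Nat.Prime, 1 / (p : ℝ) + (1 / (w : ℝ) - 1 / Y)) := by
  induction Y, hY using Nat.le_induction with
  | base => simp
  | succ Y hY ih =>
    have hY0 : (0 : ℝ) < Y := by exact_mod_cast (by omega : 0 < Y)
    have hY1 : (0 : ℝ) < (Y : ℝ) + 1 := by linarith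
    have e : Ioc w (Y + 1) = insert (Y + 1) (Ioc w Y) := by
      ext x; simp only [mem_Ioc, mem_insert]; omega
    rw [W_succ, e, filter_insert]
    split_ifs with h
    · rw [sum_insert (by simp)]
      have e1 : (1 - (((Y + 1 : ℕ) : ℝ))⁻¹)⁻¹ = 1 + 1 / (Y : ℝ) := by
        push_cast
        have h5 : 1 - ((Y : ℝ) + 1)⁻¹ = Y / (Y + 1) := by field_simp; ring
        rw [h5, inv_div]
        field_simp
      rw [e1]
      have h2 : 1 + 1 / (Y : ℝ) ≤ Real.exp (1 / Y) := by
        have := Real.add_one_le_exp (1 / (Y : ℝ))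
        linarith
      calc (1 + 1 / (Y : ℝ)) * W Y ≤ Real.exp (1 / Y) * (W w * Real.exp
            (∑ p ∈ (Ioc w Y).filter Nat.Prime, 1 / (p : ℝ) + (1 / (w : ℝ) - 1 / Y))) :=
            mul_le_mul h2 ih (W_pos _).le (Real.exp_pos _).le
        _ = W w * Real.exp (1 / Y + (∑ p ∈ (Ioc w Y).filter Nat.Prime, 1 / (p : ℝ) +
            (1 / (w : ℝ) - 1 / Y))) := by rw [Real.exp_add (1 / (Y : ℝ))]; ring
        _ = _ := by
            congr 2
            push_cast
            ring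
    · refine ih.trans (mul_le_mul_of_nonneg_left (Real.exp_le_exp.2 ?_) (W_pos _).le)
      have : 1 / (((Y + 1 : ℕ) : ℝ)) ≤ 1 / (Y : ℝ) :=
        one_div_le_one_div_of_le hY0 (by push_cast; linarith)
      linarith

lemma card_primeFactors_le (m : ℕ) (hm : m ≠ 0) :
    ((m.primeFactors.card : ℕ) : ℝ) * Real.log 2 ≤ Real.log m := by
  have h1 : 2 ^ m.primeFactors.card ≤ m := by
    calc 2 ^ m.primeFactors.card = ∏ _p ∈ m.primeFactors, 2 := by rw [prod_const]
      _ ≤ ∏ p ∈ m.primeFactors, p :=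
          prod_le_prod' fun p hp => (Nat.prime_of_mem_primeFactors hp).two_le
      _ ≤ m := Nat.le_of_dvd (Nat.pos_of_ne_zero hm) (Nat.prod_primeFactors_dvd m)
  have h2 : ((2 : ℝ)) ^ m.primeFactors.card ≤ m := by exact_mod_cast h1
  rw [← Real.log_pow]
  exact Real.log_le_log (by positivity) h2

open Classical in
/-- the primes which can meet both intervals have small mass -/
lemma col_mass (B : Finset ℕ) (H D X w : ℕ) (hB : ∀ p ∈ B, p.Prime ∧ w < p) (hHD : H < D)
    (hDX : D ≤ X) (hw : 1 ≤ w) :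
    ∑ p ∈ B.filter (fun p => Col H D p), 1 / (p : ℝ) ≤
      (2 * (H : ℝ) + 1) * (Real.log (2 * X) / Real.log 2) / w := by
  have hw0 : (0 : ℝ) < w := by exact_mod_cast hw
  have hl2 : 0 < Real.log 2 := Real.log_pos (by norm_num)
  have hsub : B.filter (fun p => Col H D p) ⊆ (Icc (D - H) (D + H)).biUnion Nat.primeFactors := by
    intro p hp
    rw [mem_filter] at hp
    obtain ⟨s, hs, s', hs', h⟩ := hp.2
    rw [mem_biUnion]
    refine ⟨s + D - s', mem_Icc.2 ⟨by omega, by omega⟩, ?_⟩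
    rw [Nat.mem_primeFactors]
    refine ⟨(hB p hp.1).1, ?_, by omega⟩
    have h1 : s' ≡ s + D [MOD p] := by
      show s' % p = (s + D) % p
      rw [← h, Nat.mod_mod]
    exact (Nat.modEq_iff_dvd' (by omega)).1 h1
  have hcard : (((Icc (D - H) (D + H)).biUnion Nat.primeFactors).card : ℝ) ≤
      (2 * (H : ℝ) + 1) * (Real.log (2 * X) / Real.log 2) := by
    have h1 : (((Icc (D - H) (D + H)).biUnion Nat.primeFactors).card : ℝ) ≤
        ∑ m ∈ Icc (D - H) (D + H), (m.primeFactors.card : ℝ) := by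
      exact_mod_cast card_biUnion_le
    refine h1.trans ?_
    have h2 : ∀ m ∈ Icc (D - H) (D + H), ((m.primeFactors.card : ℕ) : ℝ) ≤
        Real.log (2 * X) / Real.log 2 := by
      intro m hm
      rw [mem_Icc] at hm
      have hm0 : m ≠ 0 := by omega
      rw [le_div_iff₀ hl2]
      refine (card_primeFactors_le m hm0).trans ?_
      refine Real.log_le_log (by exact_mod_cast Nat.pos_of_ne_zero hm0) ?_
      exact_mod_cast (by omega : m ≤ 2 * X)
    refine (sum_le_sum h2).trans (le_of_eq ?_)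
    rw [sum_const, Nat.card_Icc, nsmul_eq_mul]
    congr 1
    have h3 : D + H + 1 - (D - H) = 2 * H + 1 := by omega
    rw [h3]
    push_cast
    ring
  calc ∑ p ∈ B.filter (fun p => Col H D p), 1 / (p : ℝ) ≤
      ∑ p ∈ B.filter (fun p => Col H D p), 1 / (w : ℝ) := by
        refine sum_le_sum fun p hp => ?_
        refine one_div_le_one_div_of_le hw0 ?_
        exact_mod_cast (hB p (mem_filter.1 hp).1).2.le
    _ = ((B.filter (fun p => Col H D p)).card : ℝ) * (1 / w) := by
        rw [sum_const, nsmul_eq_mul]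
    _ ≤ (((Icc (D - H) (D + H)).biUnion Nat.primeFactors).card : ℝ) * (1 / w) := by
        refine mul_le_mul_of_nonneg_right ?_ (by positivity)
        exact_mod_cast card_le_card hsub
    _ ≤ ((2 * (H : ℝ) + 1) * (Real.log (2 * X) / Real.log 2)) * (1 / w) :=
        mul_le_mul_of_nonneg_right hcard (by positivity)
    _ = _ := by ring

lemma tendsto_ww : Tendsto ww atTop atTop := by
  have hL : Tendsto (fun X : ℕ => Real.log X) atTop atTop :=
    Real.tendsto_log_atTop.comp tendsto_natCast_atTop_atTop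
  have h1 : Tendsto (fun X : ℕ => Real.log X ^ 40) atTop atTop :=
    (tendsto_pow_atTop (by norm_num)).comp hL
  exact tendsto_nat_ceil_atTop.comp h1

lemma tendsto_Y2 (ε : ℝ) (h1 : ε ≤ 1) : Tendsto (Y2 ε) atTop atTop := by
  have hL : Tendsto (fun X : ℕ => Real.log X) atTop atTop :=
    Real.tendsto_log_atTop.comp tendsto_natCast_atTop_atTop
  have h2 : Tendsto (fun X : ℕ => 2 * Real.log X ^ (1 - ε / 4)) atTop atTop :=
    (((tendsto_rpow_atTop (by linarith)).comp hL).const_mul_atTop (by norm_num))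
  exact tendsto_nat_floor_atTop.comp (Real.tendsto_exp_atTop.comp h2)

theorem t_MAS : Pool.Agent.V5helper49.LR.S_MAS := by
  classical
  intro ε hε hε1
  obtain ⟨C, hC, hCW⟩ := W_upper
  obtain ⟨c, hc, hcW⟩ := W_lower
  have hL : Tendsto (fun X : ℕ => Real.log X) atTop atTop :=
    Real.tendsto_log_atTop.comp tendsto_natCast_atTop_atTop
  have hpow : ∀ a : ℝ, 0 < a → ∀ K : ℝ, ∀ᶠ X : ℕ in atTop, K ≤ Real.log X ^ a := fun a ha K =>
    ((tendsto_rpow_atTop ha).comp hL).eventually_ge_atTop K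
  -- `K log L ≤ L ^ (ε / 12)`
  set K : ℝ := Real.exp 1 * C * 41 / c with hK
  have hK0 : 0 < K := by positivity
  have hlog : ∀ᶠ X : ℕ in atTop, K * Real.log (Real.log X) ≤ Real.log X ^ (ε / 12) := by
    have h1 := (isLittleO_log_rpow_atTop (r := ε / 12) (by positivity)).bound
      (show (0 : ℝ) < 1 / K by positivity)
    have h2 := hL.eventually h1
    filter_upwards [h2, hL.eventually_ge_atTop 1] with X hX hX1
    have h3 : 0 ≤ Real.log X ^ (ε / 12) := Real.rpow_nonneg (by linarith) _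
    rw [Real.norm_of_nonneg h3] at hX
    have h4 := (le_abs_self _).trans hX
    rw [one_div, inv_mul_eq_div, le_div_iff₀ hK0] at h4
    linarith
  have hall : ∀ᶠ X : ℕ in atTop, 10 ≤ Real.log X ∧ 9 ≤ Real.log (Real.log X) ∧
      2 * C ≤ Real.log X ^ (ε / 4) ∧ 2 ≤ Real.log X ^ (ε / 4) ∧
      K * Real.log (Real.log X) ≤ Real.log X ^ (ε / 12) ∧
      W (ww X) ≤ C * Real.log (ww X) ∧ W (Y2 ε X) ≤ C * Real.log (Y2 ε X) ∧
      c * Real.log (Y2 ε X) ≤ W (Y2 ε X) ∧ ww X ≤ Y2 ε X := by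
    have hwY : ∀ᶠ X : ℕ in atTop, ww X ≤ Y2 ε X := by
      have h1 : ∀ᶠ X : ℕ in atTop, 41 * Real.log (Real.log X) ≤ Real.log X ^ (1 - ε / 4) := by
        have h1 := (isLittleO_log_rpow_atTop (r := 1 - ε / 4) (by linarith)).bound
          (show (0 : ℝ) < 1 / 41 by norm_num)
        have h2 := hL.eventually h1
        filter_upwards [h2, hL.eventually_ge_atTop 1] with X hX hX1
        have h3 : 0 ≤ Real.log X ^ (1 - ε / 4) := Real.rpow_nonneg (by linarith) _
        rw [Real.norm_of_nonneg h3] at hX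
        have h4 := (le_abs_self _).trans hX
        linarith
      filter_upwards [h1, hL.eventually_ge_atTop 10] with X hX hX10
      have hL0 : 0 < Real.log X := by linarith
      rw [ww, Y2]
      refine Nat.ceil_le.2 ?_
      have h5 : Real.log X ^ 41 ≤ Real.exp (2 * Real.log X ^ (1 - ε / 4)) := by
        rw [← Real.log_le_iff_le_exp (by positivity), Real.log_pow]
        push_cast
        have : 0 ≤ Real.log X ^ (1 - ε / 4) := Real.rpow_nonneg hL0.le _
        linarith
      have h6 := (Nat.lt_floor_add_one (Real.exp (2 * Real.log X ^ (1 - ε / 4)))).le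
      have h7 : Real.log X ^ 40 + 1 ≤ Real.log X ^ 41 := by
        have h8 : (1 : ℝ) ≤ Real.log X ^ 40 := one_le_pow₀ (by linarith)
        calc Real.log X ^ 40 + 1 ≤ Real.log X ^ 40 * 2 := by linarith
          _ ≤ Real.log X ^ 40 * Real.log X := mul_le_mul_of_nonneg_left (by linarith) (by positivity)
          _ = _ := by ring
      linarith
    filter_upwards [hL.eventually_ge_atTop 10, (Real.tendsto_log_atTop.comp hL).eventually_ge_atTop 9,
      hpow (ε / 4) (by positivity) (2 * C), hpow (ε / 4) (by positivity) 2, hlog,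
      tendsto_ww.eventually hCW, (tendsto_Y2 ε hε1).eventually hCW,
      (tendsto_Y2 ε hε1).eventually hcW, hwY] with X a1 a2 a3 a4 a5 a6 a7 a8 a9
    exact ⟨a1, a2, a3, a4, a5, a6, a7, a8, a9⟩
  obtain ⟨X₀, hX₀⟩ := eventually_atTop.1 hall
  refine ⟨X₀ + 1, fun X hX H D hH hHD hDX => ?_⟩
  obtain ⟨a1, a2, a3, a4, a5, a6, a7, a8, a9⟩ := hX₀ X (by omega)
  have hX0 : (0 : ℝ) < X := by exact_mod_cast (by omega : 0 < X)
  set L : ℝ := Real.log X with hLdef
  have hL0 : 0 < L := by linarith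
  have hXe : Real.exp L = X := Real.exp_log hX0
  have hLe : 0 ≤ L ^ (1 - ε / 4) := Real.rpow_nonneg hL0.le _
  have hprod : L ^ (1 - ε / 4) * L ^ (ε / 4) = L := by
    rw [← Real.rpow_add hL0]
    have : 1 - ε / 4 + ε / 4 = 1 := by ring
    rw [this, Real.rpow_one]
  have h2L : 2 * L ^ (1 - ε / 4) ≤ L := by
    calc 2 * L ^ (1 - ε / 4) ≤ L ^ (ε / 4) * L ^ (1 - ε / 4) := mul_le_mul_of_nonneg_right a4 hLe
      _ = L := by rw [mul_comm]; exact hprod
  have hH2 : (H : ℝ) ≤ L ^ 2 := by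
    refine hH.trans ?_
    rw [← Real.rpow_natCast L 2]
    exact Real.rpow_le_rpow_of_exponent_le (by linarith) (by push_cast; linarith)
  have hwwge : L ^ 40 ≤ ww X := Nat.le_ceil _
  have hL40 : L ^ 38 * L ^ 2 = L ^ 40 := by rw [← pow_add]
  have hL38 : (100 : ℝ) ≤ L ^ 38 := by
    calc (100 : ℝ) ≤ 10 ^ 38 := by norm_num
      _ ≤ L ^ 38 := pow_le_pow_left₀ (by norm_num) a1 38
  have hL2 : (100 : ℝ) ≤ L ^ 2 := by nlinarith
  -- (5)
  have g5 : 8 * (H + 1) ≤ ww X := by
    have h1 : 8 * ((H : ℝ) + 1) ≤ ww X := by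
      refine le_trans ?_ hwwge
      rw [← hL40]
      nlinarith
    exact_mod_cast h1
  have hww1 : 1 ≤ ww X := by omega
  have hww0 : (0 : ℝ) < ww X := by exact_mod_cast hww1
  have hwwlog : Real.log (ww X) ≤ 41 * Real.log L := by
    have h1 : (ww X : ℝ) ≤ L ^ 41 := by
      have h2 := (Nat.ceil_lt_add_one (by positivity : (0 : ℝ) ≤ L ^ 40)).le
      have h3 : (ww X : ℝ) ≤ L ^ 40 + 1 := h2
      refine h3.trans ?_
      have h8 : (1 : ℝ) ≤ L ^ 40 := one_le_pow₀ (by linarith)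
      calc L ^ 40 + 1 ≤ L ^ 40 * 2 := by linarith
        _ ≤ L ^ 40 * L := mul_le_mul_of_nonneg_left (by linarith) (by positivity)
        _ = _ := by ring
    have h4 := Real.log_le_log hww0 h1
    rw [Real.log_pow] at h4
    push_cast at h4
    exact h4
  have hY0 : 0 < Y2 ε X := by omega
  have hY0R : (0 : ℝ) < Y2 ε X := by exact_mod_cast hY0
  have hYle : Real.log (Y2 ε X) ≤ 2 * L ^ (1 - ε / 4) := by
    rw [Real.log_le_iff_le_exp hY0R]
    exact Nat.floor_le (Real.exp_pos _).le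
  -- (3)
  have g3 : W (Y2 ε X) ≤ L := by
    refine a7.trans ?_
    calc C * Real.log (Y2 ε X) ≤ C * (2 * L ^ (1 - ε / 4)) := mul_le_mul_of_nonneg_left hYle hC.le
      _ = (2 * C) * L ^ (1 - ε / 4) := by ring
      _ ≤ L ^ (ε / 4) * L ^ (1 - ε / 4) := mul_le_mul_of_nonneg_right a3 hLe
      _ = L := by rw [mul_comm]; exact hprod
  -- (4)
  have g4 : Bs ε X ⊆ QQ X := by
    intro p hp
    rw [Bs, mem_filter, mem_Ioc] at hp
    rw [QQ, mem_filter, mem_Ioc]
    refine ⟨⟨?_, ?_⟩, hp.2⟩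
    · refine lt_of_le_of_lt ?_ hp.1.1
      have h1 : (z1 X : ℝ) ≤ L / 4 := Nat.floor_le (by positivity)
      have h2 : (z1 X : ℝ) ≤ ww X := by
        refine h1.trans (le_trans ?_ hwwge)
        rw [← hL40]
        nlinarith
      exact_mod_cast h2
    · refine hp.1.2.trans ?_
      have h1 : (Y2 ε X : ℝ) ≤ X := by
        rw [← hXe]
        exact (Nat.floor_le (Real.exp_pos _).le).trans (Real.exp_le_exp.2 h2L)
      have h2 : Y2 ε X ≤ X := by exact_mod_cast h1
      omega
  -- (2)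
  set S : ℝ := ∑ p ∈ Bs ε X, 1 / (p : ℝ) with hS
  have hlogY : L ^ (1 - ε / 4) ≤ Real.log (Y2 ε X) := by
    have h1 : (1 : ℝ) ≤ L ^ (1 - ε / 4) := Real.one_le_rpow (by linarith) (by linarith)
    have h2 : Real.exp (L ^ (1 - ε / 4)) ≤ Y2 ε X := by
      have h3 := (Nat.lt_floor_add_one (Real.exp (2 * L ^ (1 - ε / 4)))).le
      have h4 : Real.exp (2 * L ^ (1 - ε / 4)) = Real.exp (L ^ (1 - ε / 4)) *
          Real.exp (L ^ (1 - ε / 4)) := by
        rw [← Real.exp_add]
        congr 1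
        ring
      have h5 : (2 : ℝ) ≤ Real.exp (L ^ (1 - ε / 4)) := by
        have := Real.add_one_le_exp (L ^ (1 - ε / 4))
        linarith
      have h6 : Real.exp (2 * L ^ (1 - ε / 4)) ≤ (Y2 ε X : ℝ) + 1 := h3
      rw [h4] at h6
      nlinarith
    exact (Real.le_log_iff_exp_le hY0R).2 h2
  have hWS := W_step (ww X) hww1 (Y2 ε X) a9
  have hSle : W (Y2 ε X) ≤ W (ww X) * (Real.exp 1 * Real.exp S) := by
    refine hWS.trans (mul_le_mul_of_nonneg_left ?_ (W_pos _).le)
    rw [← Real.exp_add]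
    refine Real.exp_le_exp.2 ?_
    have h1 : 1 / (ww X : ℝ) ≤ 1 := by
      rw [div_le_one hww0]
      exact_mod_cast hww1
    have h2 : 0 ≤ 1 / (Y2 ε X : ℝ) := by positivity
    have h3 : ∑ p ∈ (Ioc (ww X) (Y2 ε X)).filter Nat.Prime, 1 / (p : ℝ) = S := rfl
    rw [h3]
    linarith
  have g2 : Real.exp (-S) ≤ L ^ (-(1 - ε / 3)) := by
    have h1 : c * L ^ (1 - ε / 4) ≤ (C * (41 * Real.log L)) * (Real.exp 1 * Real.exp S) := by
      calc c * L ^ (1 - ε / 4) ≤ c * Real.log (Y2 ε X) := mul_le_mul_of_nonneg_left hlogY hc.le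
        _ ≤ W (Y2 ε X) := a8
        _ ≤ W (ww X) * (Real.exp 1 * Real.exp S) := hSle
        _ ≤ _ := by
            refine mul_le_mul_of_nonneg_right (a6.trans ?_) (by positivity)
            exact mul_le_mul_of_nonneg_left hwwlog hC.le
    have h2 : L ^ (1 - ε / 4) ≤ K * Real.log L * Real.exp S := by
      rw [hK]
      have h3 : c * L ^ (1 - ε / 4) ≤ c * (Real.exp 1 * C * 41 / c * Real.log L * Real.exp S) := by
        refine h1.trans (le_of_eq ?_)
        field_simp
      exact le_of_mul_le_mul_left h3 hc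
    have h4 : L ^ (1 - ε / 4) ≤ L ^ (ε / 12) * Real.exp S :=
      h2.trans (mul_le_mul_of_nonneg_right a5 (Real.exp_pos _).le)
    have h5 : L ^ (1 - ε / 3) ≤ Real.exp S := by
      have h6 : L ^ (1 - ε / 4) = L ^ (ε / 12) * L ^ (1 - ε / 3) := by
        rw [← Real.rpow_add hL0]
        congr 1
        ring
      rw [h6] at h4
      exact le_of_mul_le_mul_left h4 (Real.rpow_pos_of_pos hL0 _)
    rw [Real.exp_neg, Real.rpow_neg hL0.le]
    exact inv_anti₀ (Real.rpow_pos_of_pos hL0 _) h5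
  -- (1)
  have hS6 : 6 ≤ S := by
    have h1 := Real.log_le_log (Real.exp_pos _) g2
    rw [Real.log_exp, Real.log_rpow hL0] at h1
    have h2 : (2 : ℝ) / 3 * Real.log L ≤ (1 - ε / 3) * Real.log L :=
      mul_le_mul_of_nonneg_right (by linarith) (by linarith)
    linarith
  have hBs : ∀ p ∈ Bs ε X, p.Prime ∧ ww X < p := by
    intro p hp
    rw [Bs, mem_filter, mem_Ioc] at hp
    exact ⟨hp.2, hp.1.1⟩
  have hcol := col_mass (Bs ε X) H D X (ww X) hBs hHD hDX hww1
  have hcol1 : (2 * (H : ℝ) + 1) * (Real.log (2 * X) / Real.log 2) / ww X ≤ 1 := by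
    rw [div_le_one hww0]
    refine le_trans ?_ hwwge
    have h1 : Real.log (2 * X) / Real.log 2 ≤ 3 * L := by
      have hl2 : 0.69 < Real.log 2 := by
        have := Real.log_two_gt_d9
        linarith
      have hl2' : Real.log 2 < 0.7 := by
        have := Real.log_two_lt_d9
        linarith
      rw [div_le_iff₀ (by linarith), Real.log_mul (by norm_num) hX0.ne']
      nlinarith
    have h2 : 2 * (H : ℝ) + 1 ≤ 3 * L ^ 2 := by linarith
    calc (2 * (H : ℝ) + 1) * (Real.log (2 * X) / Real.log 2) ≤ (3 * L ^ 2) * (3 * L) :=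
          mul_le_mul h2 h1 (div_nonneg (Real.log_nonneg (by
            have : (1 : ℝ) ≤ X := by exact_mod_cast (by omega : 1 ≤ X)
            linarith)) (Real.log_nonneg (by norm_num))) (by positivity)
      _ = 9 * L ^ 3 := by ring
      _ ≤ L ^ 37 * L ^ 3 := by
          refine mul_le_mul_of_nonneg_right ?_ (by positivity)
          calc (9 : ℝ) ≤ 10 ^ 37 := by norm_num
            _ ≤ L ^ 37 := pow_le_pow_left₀ (by norm_num) a1 37
      _ = L ^ 40 := by rw [← pow_add]
  have g1 : 5 ≤ mass (Bs ε X) H D (QQ X).toList := by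
    have h1 : mass (Bs ε X) H D (QQ X).toList =
        ∑ p ∈ QQ X, if p ∈ Bs ε X ∧ ¬ Col H D p then 1 / (p : ℝ) else 0 := by
      rw [mass, Finset.sum_map_toList]
    have h2 : (∑ p ∈ QQ X, if p ∈ Bs ε X ∧ ¬ Col H D p then 1 / (p : ℝ) else 0) =
        ∑ p ∈ (Bs ε X).filter (fun p => ¬ Col H D p), 1 / (p : ℝ) := by
      rw [← sum_filter]
      refine sum_congr ?_ fun _ _ => rfl
      ext p
      rw [mem_filter, mem_filter]
      exact ⟨fun h => h.2, fun h => ⟨g4 h.1, h⟩⟩
    have h3 : ∑ p ∈ (Bs ε X).filter (fun p => Col H D p), 1 / (p : ℝ) +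
        ∑ p ∈ (Bs ε X).filter (fun p => ¬ Col H D p), 1 / (p : ℝ) = S :=
      sum_filter_add_sum_filter_not _ _ _
    rw [h1, h2]
    linarith
  exact ⟨g1, g2, g3, g4, g5⟩

end Pool.Agent.V5helper31.LR
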