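import Pool.Agent.V5helper49.LR.Stm3
import Pool.Agent.V5helper31.LR.MAS

/-!
# Project LR, job MAS2: the mass of the removing primes above `yy`
-/

set_option autoImplicit false

namespace Pool.Agent.V5helper31.LR

open Finset Filter Topology
open Pool.Agent.V5helper49.LR
open Pool.Agent.V5helper42.RS (W W_succ W_pos W_mono W_one_le W_upper)

lemma tendsto_yy (ε : ℝ) (h0 : 0 < ε) : Tendsto (yy ε) atTop atTop := by
  have hL : Tendsto (fun X : ℕ => Real.log X) atTop atTop :=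
    Real.tendsto_log_atTop.comp tendsto_natCast_atTop_atTop
  have h2 : Tendsto (fun X : ℕ => Real.log X ^ (ε / 4)) atTop atTop :=
    (tendsto_rpow_atTop (by positivity)).comp hL
  exact tendsto_nat_floor_atTop.comp (Real.tendsto_exp_atTop.comp h2)

theorem t_MAS2 : Pool.Agent.V5helper49.LR.S_MAS2 := by
  classical
  intro ε hε hε1
  obtain ⟨C, hC, hCW⟩ := W_upper
  obtain ⟨c, hc, hcW⟩ := W_lower
  have hL : Tendsto (fun X : ℕ => Real.log X) atTop atTop :=
    Real.tendsto_log_atTop.comp tendsto_natCast_atTop_atTop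
  have hpow : ∀ a : ℝ, 0 < a → ∀ K : ℝ, ∀ᶠ X : ℕ in atTop, K ≤ Real.log X ^ a := fun a ha K =>
    ((tendsto_rpow_atTop ha).comp hL).eventually_ge_atTop K
  set K : ℝ := Real.exp 1 * C / c with hK
  have hK0 : 0 < K := by positivity
  have hlog : ∀ᶠ X : ℕ in atTop, 41 * Real.log (Real.log X) ≤ Real.log X ^ (ε / 4) := by
    have h1 := (isLittleO_log_rpow_atTop (r := ε / 4) (by positivity)).bound
      (show (0 : ℝ) < 1 / 41 by norm_num)
    have h2 := hL.eventually h1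
    filter_upwards [h2, hL.eventually_ge_atTop 1] with X hX hX1
    have h3 : 0 ≤ Real.log X ^ (ε / 4) := Real.rpow_nonneg (by linarith) _
    rw [Real.norm_of_nonneg h3] at hX
    have h4 := (le_abs_self _).trans hX
    linarith
  have hall : ∀ᶠ X : ℕ in atTop, 10 ≤ Real.log X ∧ 15 ≤ Real.log (Real.log X) ∧
      2 * C ≤ Real.log X ^ (ε / 4) ∧ 2 ≤ Real.log X ^ (ε / 4) ∧
      K ≤ Real.log X ^ (ε / 10) ∧
      W (yy ε X) ≤ C * Real.log (yy ε X) ∧ W (Y2 ε X) ≤ C * Real.log (Y2 ε X) ∧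
      c * Real.log (Y2 ε X) ≤ W (Y2 ε X) ∧ 41 * Real.log (Real.log X) ≤ Real.log X ^ (ε / 4) := by
    filter_upwards [hL.eventually_ge_atTop 10, (Real.tendsto_log_atTop.comp hL).eventually_ge_atTop 15,
      hpow (ε / 4) (by positivity) (2 * C), hpow (ε / 4) (by positivity) 2,
      hpow (ε / 10) (by positivity) K,
      (tendsto_yy ε hε).eventually hCW, (tendsto_Y2 ε hε1).eventually hCW,
      (tendsto_Y2 ε hε1).eventually hcW, hlog] with X a1 a2 a3 a4 a5 a6 a7 a8 a9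
    exact ⟨a1, a2, a3, a4, a5, a6, a7, a8, a9⟩
  obtain ⟨X₀, hX₀⟩ := eventually_atTop.1 hall
  refine ⟨X₀ + 1, fun X hX H D hH hHD hDX => ?_⟩
  obtain ⟨a1, a2, a3, a4, a5, a6, a7, a8, a9⟩ := hX₀ X (by omega)
  have hX0 : (0 : ℝ) < X := by exact_mod_cast (by omega : 0 < X)
  set L : ℝ := Real.log X with hLdef
  have hL0 : 0 < L := by linarith
  have hXe : Real.exp L = X := Real.exp_log hX0
  have hLe : 0 ≤ L ^ (1 - ε / 4) := Real.rpow_nonneg hL0.le _
  have hprod : L ^ (1 - ε / 4) * L ^ (ε / 4) = L := by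
    rw [← Real.rpow_add hL0]
    have : 1 - ε / 4 + ε / 4 = 1 := by ring
    rw [this, Real.rpow_one]
  have h2L : 2 * L ^ (1 - ε / 4) ≤ L := by
    calc 2 * L ^ (1 - ε / 4) ≤ L ^ (ε / 4) * L ^ (1 - ε / 4) := mul_le_mul_of_nonneg_right a4 hLe
      _ = L := by rw [mul_comm]; exact hprod
  have hH2 : (H : ℝ) ≤ L ^ 2 := by
    refine hH.trans ?_
    rw [← Real.rpow_natCast L 2]
    exact Real.rpow_le_rpow_of_exponent_le (by linarith) (by push_cast; linarith)
  have hwwge : L ^ 40 ≤ yy ε X := by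
    have h5 : L ^ 41 ≤ Real.exp (L ^ (ε / 4)) := by
      rw [← Real.log_le_iff_le_exp (by positivity), Real.log_pow]
      push_cast
      exact a9
    have h6 := (Nat.lt_floor_add_one (Real.exp (L ^ (ε / 4)))).le
    have h7 : L ^ 40 + 1 ≤ L ^ 41 := by
      have h8 : (1 : ℝ) ≤ L ^ 40 := one_le_pow₀ (by linarith)
      calc L ^ 40 + 1 ≤ L ^ 40 * 2 := by linarith
        _ ≤ L ^ 40 * L := mul_le_mul_of_nonneg_left (by linarith) (by positivity)
        _ = _ := by ring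
    have h9 : L ^ 40 + 1 ≤ (yy ε X : ℝ) + 1 := h7.trans (h5.trans h6)
    linarith
  have hL40 : L ^ 38 * L ^ 2 = L ^ 40 := by rw [← pow_add]
  have hL38 : (100 : ℝ) ≤ L ^ 38 := by
    calc (100 : ℝ) ≤ 10 ^ 38 := by norm_num
      _ ≤ L ^ 38 := pow_le_pow_left₀ (by norm_num) a1 38
  have hL2 : (100 : ℝ) ≤ L ^ 2 := by nlinarith
  -- (5)
  have g5 : 8 * (H + 1) ≤ yy ε X := by
    have h1 : 8 * ((H : ℝ) + 1) ≤ yy ε X := by
      refine le_trans ?_ hwwge
      rw [← hL40]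
      nlinarith
    exact_mod_cast h1
  have hww1 : 1 ≤ yy ε X := by omega
  have hww0 : (0 : ℝ) < yy ε X := by exact_mod_cast hww1
  have hyyY : yy ε X ≤ Y2 ε X := by
    refine Nat.floor_mono (Real.exp_le_exp.2 ?_)
    have h1 : L ^ (ε / 4) ≤ L ^ (1 - ε / 4) :=
      Real.rpow_le_rpow_of_exponent_le (by linarith) (by linarith)
    linarith
  have hwwlog : Real.log (yy ε X) ≤ L ^ (ε / 4) := by
    rw [Real.log_le_iff_le_exp hww0]
    exact Nat.floor_le (Real.exp_pos _).le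
  have hY0 : 0 < Y2 ε X := by omega
  have hY0R : (0 : ℝ) < Y2 ε X := by exact_mod_cast hY0
  have hYle : Real.log (Y2 ε X) ≤ 2 * L ^ (1 - ε / 4) := by
    rw [Real.log_le_iff_le_exp hY0R]
    exact Nat.floor_le (Real.exp_pos _).le
  -- (3)
  have g3 : W (Y2 ε X) ≤ L := by
    refine a7.trans ?_
    calc C * Real.log (Y2 ε X) ≤ C * (2 * L ^ (1 - ε / 4)) := mul_le_mul_of_nonneg_left hYle hC.le
      _ = (2 * C) * L ^ (1 - ε / 4) := by ring
      _ ≤ L ^ (ε / 4) * L ^ (1 - ε / 4) := mul_le_mul_of_nonneg_right a3 hLe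
      _ = L := by rw [mul_comm]; exact hprod
  -- (4)
  have g4 : B2 ε X ⊆ Q2 ε X := by
    intro p hp
    rw [B2, mem_filter, mem_Ioc] at hp
    rw [Q2, mem_filter, mem_Ioc]
    refine ⟨⟨hp.1.1, ?_⟩, hp.2⟩
    refine hp.1.2.trans ?_
    have h1 : (Y2 ε X : ℝ) ≤ X := by
      rw [← hXe]
      exact (Nat.floor_le (Real.exp_pos _).le).trans (Real.exp_le_exp.2 h2L)
    have h2 : Y2 ε X ≤ X := by exact_mod_cast h1
    omega
  -- (2)
  set S : ℝ := ∑ p ∈ B2 ε X, 1 / (p : ℝ) with hS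
  have hlogY : L ^ (1 - ε / 4) ≤ Real.log (Y2 ε X) := by
    have h1 : (1 : ℝ) ≤ L ^ (1 - ε / 4) := Real.one_le_rpow (by linarith) (by linarith)
    have h2 : Real.exp (L ^ (1 - ε / 4)) ≤ Y2 ε X := by
      have h3 := (Nat.lt_floor_add_one (Real.exp (2 * L ^ (1 - ε / 4)))).le
      have h4 : Real.exp (2 * L ^ (1 - ε / 4)) = Real.exp (L ^ (1 - ε / 4)) *
          Real.exp (L ^ (1 - ε / 4)) := by
        rw [← Real.exp_add]
        congr 1
        ring
      have h5 : (2 : ℝ) ≤ Real.exp (L ^ (1 - ε / 4)) := by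
        have := Real.add_one_le_exp (L ^ (1 - ε / 4))
        linarith
      have h6 : Real.exp (2 * L ^ (1 - ε / 4)) ≤ (Y2 ε X : ℝ) + 1 := h3
      rw [h4] at h6
      nlinarith
    exact (Real.le_log_iff_exp_le hY0R).2 h2
  have hWS := W_step (yy ε X) hww1 (Y2 ε X) hyyY
  have hSle : W (Y2 ε X) ≤ W (yy ε X) * (Real.exp 1 * Real.exp S) := by
    refine hWS.trans (mul_le_mul_of_nonneg_left ?_ (W_pos _).le)
    rw [← Real.exp_add]
    refine Real.exp_le_exp.2 ?_
    have h1 : 1 / (yy ε X : ℝ) ≤ 1 := by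
      rw [div_le_one hww0]
      exact_mod_cast hww1
    have h2 : 0 ≤ 1 / (Y2 ε X : ℝ) := by positivity
    have h3 : ∑ p ∈ (Ioc (yy ε X) (Y2 ε X)).filter Nat.Prime, 1 / (p : ℝ) = S := rfl
    rw [h3]
    linarith
  have g2 : Real.exp (-S) ≤ L ^ (-(1 - 3 * ε / 5)) := by
    have h1 : c * L ^ (1 - ε / 4) ≤ (C * L ^ (ε / 4)) * (Real.exp 1 * Real.exp S) := by
      calc c * L ^ (1 - ε / 4) ≤ c * Real.log (Y2 ε X) := mul_le_mul_of_nonneg_left hlogY hc.le
        _ ≤ W (Y2 ε X) := a8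
        _ ≤ W (yy ε X) * (Real.exp 1 * Real.exp S) := hSle
        _ ≤ _ := by
            refine mul_le_mul_of_nonneg_right (a6.trans ?_) (by positivity)
            exact mul_le_mul_of_nonneg_left hwwlog hC.le
    have h2 : L ^ (1 - ε / 4) ≤ K * L ^ (ε / 4) * Real.exp S := by
      rw [hK]
      have h3 : c * L ^ (1 - ε / 4) ≤ c * (Real.exp 1 * C / c * L ^ (ε / 4) * Real.exp S) := by
        refine h1.trans (le_of_eq ?_)
        field_simp
      exact le_of_mul_le_mul_left h3 hc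
    have h4 : L ^ (1 - ε / 4) ≤ L ^ (ε / 10) * L ^ (ε / 4) * Real.exp S :=
      h2.trans (mul_le_mul_of_nonneg_right
        (mul_le_mul_of_nonneg_right a5 (Real.rpow_nonneg hL0.le _)) (Real.exp_pos _).le)
    have h5 : L ^ (1 - 3 * ε / 5) ≤ Real.exp S := by
      have h6 : L ^ (1 - ε / 4) = L ^ (ε / 10) * L ^ (ε / 4) * L ^ (1 - 3 * ε / 5) := by
        rw [← Real.rpow_add hL0, ← Real.rpow_add hL0]
        congr 1
        ring
      rw [h6] at h4
      exact le_of_mul_le_mul_left h4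
        (mul_pos (Real.rpow_pos_of_pos hL0 _) (Real.rpow_pos_of_pos hL0 _))
    rw [Real.exp_neg, Real.rpow_neg hL0.le]
    exact inv_anti₀ (Real.rpow_pos_of_pos hL0 _) h5
  -- (1)
  have hS6 : 6 ≤ S := by
    have h1 := Real.log_le_log (Real.exp_pos _) g2
    rw [Real.log_exp, Real.log_rpow hL0] at h1
    have h2 : (2 : ℝ) / 5 * Real.log L ≤ (1 - 3 * ε / 5) * Real.log L :=
      mul_le_mul_of_nonneg_right (by linarith) (by linarith)
    linarith
  have hBs : ∀ p ∈ B2 ε X, p.Prime ∧ yy ε X < p := by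
    intro p hp
    rw [B2, mem_filter, mem_Ioc] at hp
    exact ⟨hp.2, hp.1.1⟩
  have hcol := col_mass (B2 ε X) H D X (yy ε X) hBs hHD hDX hww1
  have hcol1 : (2 * (H : ℝ) + 1) * (Real.log (2 * X) / Real.log 2) / yy ε X ≤ 1 := by
    rw [div_le_one hww0]
    refine le_trans ?_ hwwge
    have h1 : Real.log (2 * X) / Real.log 2 ≤ 3 * L := by
      have hl2 : 0.69 < Real.log 2 := by
        have := Real.log_two_gt_d9
        linarith
      have hl2' : Real.log 2 < 0.7 := by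
        have := Real.log_two_lt_d9
        linarith
      rw [div_le_iff₀ (by linarith), Real.log_mul (by norm_num) hX0.ne']
      nlinarith
    have h2 : 2 * (H : ℝ) + 1 ≤ 3 * L ^ 2 := by linarith
    calc (2 * (H : ℝ) + 1) * (Real.log (2 * X) / Real.log 2) ≤ (3 * L ^ 2) * (3 * L) :=
          mul_le_mul h2 h1 (div_nonneg (Real.log_nonneg (by
            have : (1 : ℝ) ≤ X := by exact_mod_cast (by omega : 1 ≤ X)
            linarith)) (Real.log_nonneg (by norm_num))) (by positivity)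
      _ = 9 * L ^ 3 := by ring
      _ ≤ L ^ 37 * L ^ 3 := by
          refine mul_le_mul_of_nonneg_right ?_ (by positivity)
          calc (9 : ℝ) ≤ 10 ^ 37 := by norm_num
            _ ≤ L ^ 37 := pow_le_pow_left₀ (by norm_num) a1 37
      _ = L ^ 40 := by rw [← pow_add]
  have g1 : 5 ≤ mass (B2 ε X) H D (Q2 ε X).toList := by
    have h1 : mass (B2 ε X) H D (Q2 ε X).toList =
        ∑ p ∈ Q2 ε X, if p ∈ B2 ε X ∧ ¬ Col H D p then 1 / (p : ℝ) else 0 := by
      rw [mass, Finset.sum_map_toList]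
    have h2 : (∑ p ∈ Q2 ε X, if p ∈ B2 ε X ∧ ¬ Col H D p then 1 / (p : ℝ) else 0) =
        ∑ p ∈ (B2 ε X).filter (fun p => ¬ Col H D p), 1 / (p : ℝ) := by
      rw [← sum_filter]
      refine sum_congr ?_ fun _ _ => rfl
      ext p
      rw [mem_filter, mem_filter]
      exact ⟨fun h => h.2, fun h => ⟨g4 h.1, h⟩⟩
    have h3 : ∑ p ∈ (B2 ε X).filter (fun p => Col H D p), 1 / (p : ℝ) +
        ∑ p ∈ (B2 ε X).filter (fun p => ¬ Col H D p), 1 / (p : ℝ) = S :=
      sum_filter_add_sum_filter_not _ _ _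
    rw [h1, h2]
    linarith
  exact ⟨g1, g2, g3, g4, g5⟩

end Pool.Agent.V5helper31.LR
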