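import Pool.Agent.V5helper49.LR.Stm

/-!
# Project LR, job SWP: decoupling one prime
-/

set_option autoImplicit false

namespace Pool.Agent.V5helper31.LR

open Finset Pool.Agent.V5helper49.LR

theorem shift_sum (p D : ℕ) (hp : 0 < p) (f : ℕ → ℝ) :
    ∑ x ∈ range p, f ((x + D) % p) = ∑ x ∈ range p, f x := by
  have h1 : D % p < p := Nat.mod_lt _ hp
  have h3 := Nat.div_add_mod D p
  refine Finset.sum_nbij' (fun x => (x + D) % p) (fun x => (x + (p - D % p)) % p) ?_ ?_ ?_ ?_ ?_
  · intro x _
    exact mem_range.2 (Nat.mod_lt _ hp)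
  · intro x _
    exact mem_range.2 (Nat.mod_lt _ hp)
  · intro x hx
    have hx := mem_range.1 hx
    show ((x + D) % p + (p - D % p)) % p = x
    rw [Nat.mod_add_mod]
    have h2 : x + D + (p - D % p) = x + p * (D / p + 1) := by
      rw [mul_add, mul_one]
      generalize p * (D / p) = z at *
      omega
    rw [h2, Nat.add_mul_mod_self_left, Nat.mod_eq_of_lt hx]
  · intro x hx
    have hx := mem_range.1 hx
    show ((x + (p - D % p)) % p + D) % p = x
    rw [Nat.mod_add_mod]
    have h2 : x + (p - D % p) + D = x + p * (D / p + 1) := by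
      rw [mul_add, mul_one]
      generalize p * (D / p) = z at *
      omega
    rw [h2, Nat.add_mul_mod_self_left, Nat.mod_eq_of_lt hx]
  · intro x _
    rfl

theorem J_nonneg (T V B U : Finset ℕ) (D : ℕ) (l : List ℕ) :
    ∀ K K' : Finset ℕ, 0 ≤ J T V B U D l K K' := by
  classical
  induction l with
  | nil =>
    intro K K'
    rw [J]
    split_ifs <;> norm_num
  | cons p l ih =>
    intro K K'
    rw [J]
    split_ifs
    · refine mul_nonneg (by positivity) (sum_nonneg fun x _ => sum_nonneg fun x' _ => ?_)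
      split_ifs
      · exact ih _ _
      · exact le_rfl
    · refine mul_nonneg (by positivity) (sum_nonneg fun x _ => ?_)
      split_ifs
      · exact ih _ _
      · exact le_rfl

theorem J_insert (T V B U : Finset ℕ) (D p : ℕ) (l : List ℕ) (hl : p ∉ l) :
    ∀ K K' : Finset ℕ, J T V B (insert p U) D l K K' = J T V B U D l K K' := by
  classical
  induction l with
  | nil =>
    intro K K'
    rw [J, J]
  | cons q l ih =>
    intro K K'
    have hq : q ≠ p := by
      rintro rfl
      exact hl (List.mem_cons_self)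
    have hl' : p ∉ l := fun h => hl (List.mem_cons_of_mem _ h)
    have ih := ih hl'
    rw [J, J]
    by_cases hU : q ∈ U
    · rw [if_pos hU, if_pos (mem_insert_of_mem hU)]
      simp only [ih]
    · have hU' : q ∉ insert p U := by
        rw [mem_insert, not_or]
        exact ⟨hq, hU⟩
      rw [if_neg hU, if_neg hU']
      simp only [ih]

theorem t_SWP (hI : Pool.Agent.V5helper49.LR.S_INS2) : Pool.Agent.V5helper49.LR.S_SWP := by
  classical
  intro T V B U H w D hR p l hp hl hpU hpl hpB hmass
  have hpR : (0 : ℝ) < p := by exact_mod_cast hp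
  set Φ : Finset ℕ → Finset ℕ → ℝ := fun K K' => J T V B U D l K K' with hΦ
  have hΦ0 : ∀ K K', 0 ≤ Φ K K' := J_nonneg T V B U D l
  have hΦ' : ∀ K K', J T V B (insert p U) D l K K' = Φ K K' := J_insert T V B U D p l hpl
  -- the two sides
  have hL : J T V B U D (p :: l) ∅ ∅ = (1 / (p : ℝ)) * ∑ x ∈ range p,
      if av T p x ∧ av T p ((x + D) % p) then
        Φ (∅ ∪ hit V B p x) (∅ ∪ hit V B p ((x + D) % p)) else 0 := by
    rw [J, if_neg hpU]
  have hRt : J T V B (insert p U) D (p :: l) ∅ ∅ = (1 / (p : ℝ)) ^ 2 * ∑ x ∈ range p,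
      ∑ x' ∈ range p, if av T p x ∧ av T p x' then
        Φ (∅ ∪ hit V B p x) (∅ ∪ hit V B p x') else 0 := by
    rw [J, if_pos (mem_insert_self _ _)]
    simp only [hΦ']
  -- sizes
  have hVsub : V ⊆ range (H + 1) := fun v hv => mem_range.2 (by have := hR.V_le v hv; omega)
  have hTsub : T ⊆ range (H + 1) := fun v hv => mem_range.2 (by have := hR.T_le v hv; omega)
  have hVc : V.card ≤ H + 1 := by
    have := card_le_card hVsub
    rwa [card_range] at this
  have hTV : (T ∪ V).card ≤ H + 1 := by
    have := card_le_card (union_subset hTsub hVsub)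
    rwa [card_range] at this
  -- consequence of INS2
  have hw0 : (0 : ℝ) < w := by
    have := hR.w_ge
    have h : 0 < w := by omega
    exact_mod_cast h
  have hfac : (1 : ℝ) / 2 ≤ 1 - Real.exp (2 * (V.card : ℝ) / w - mass B H D l / 2) := by
    have h1 : 2 * (V.card : ℝ) / w ≤ 1 / 4 := by
      rw [div_le_iff₀ hw0]
      have h2 : ((V.card : ℕ) : ℝ) ≤ (H : ℝ) + 1 := by exact_mod_cast hVc
      have h3 : 8 * ((H : ℝ) + 1) ≤ w := by exact_mod_cast hR.w_ge
      linarith
    have h4 : 2 * (V.card : ℝ) / w - mass B H D l / 2 ≤ -2 := by linarith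
    have h5 : Real.exp (2 * (V.card : ℝ) / w - mass B H D l / 2) ≤ Real.exp (-2) :=
      Real.exp_le_exp.2 h4
    have h6 : Real.exp (-2) ≤ 1 / 2 := by
      rw [Real.exp_neg]
      have h7 : (2 : ℝ) ≤ Real.exp 2 := by
        have := Real.add_one_le_exp (2 : ℝ)
        linarith
      rw [one_div]
      exact inv_anti₀ (by norm_num) h7
    linarith
  have hins1 : ∀ K K' : Finset ℕ, ∀ v ∈ V, Φ (insert v K) K' ≤ 2 * Φ K K' := by
    intro K K' v hv
    have h1 := (hI T V B U H w D hR l hl K K' v hv).1
    have h2 : 1 / 2 * Φ (insert v K) K' ≤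
        (1 - Real.exp (2 * (V.card : ℝ) / w - mass B H D l / 2)) * Φ (insert v K) K' :=
      mul_le_mul_of_nonneg_right hfac (hΦ0 _ _)
    have h3 : 1 / 2 * Φ (insert v K) K' ≤ Φ K K' := h2.trans h1
    linarith
  have hins2 : ∀ K K' : Finset ℕ, ∀ v ∈ V, Φ K (insert v K') ≤ 2 * Φ K K' := by
    intro K K' v hv
    have h1 := (hI T V B U H w D hR l hl K K' v hv).2
    have h2 : 1 / 2 * Φ K (insert v K') ≤
        (1 - Real.exp (2 * (V.card : ℝ) / w - mass B H D l / 2)) * Φ K (insert v K') :=
      mul_le_mul_of_nonneg_right hfac (hΦ0 _ _)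
    have h3 : 1 / 2 * Φ K (insert v K') ≤ Φ K K' := h2.trans h1
    linarith
  set Φ₀ : ℝ := Φ ∅ ∅ with hΦ₀
  have hΦ₀0 : 0 ≤ Φ₀ := hΦ0 _ _
  by_cases hB : p ∈ B
  swap
  · -- no hits
    have hhit : ∀ x, hit V B p x = ∅ := fun x => by rw [hit, if_neg hB]
    have hcc : cc T B H D p = 4 * (ov T D p : ℝ) / p := by rw [cc, if_neg hB]
    -- indicator functions
    set a : ℕ → ℝ := fun x => if av T p x then 1 else 0 with ha
    set u : ℝ := ∑ x ∈ range p, (1 - a x) with hu
    have hu0 : 0 ≤ u := sum_nonneg fun x _ => by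
      simp only [ha]
      split_ifs <;> norm_num
    have huT : u ≤ T.card := by
      have h1 : u = (((range p).filter (fun x => ¬ av T p x)).card : ℝ) := by
        rw [hu, card_filter, Nat.cast_sum]
        refine sum_congr rfl fun x _ => ?_
        simp only [ha]
        split_ifs <;> simp_all
      rw [h1]
      have h2 : (range p).filter (fun x => ¬ av T p x) ⊆ T.image (fun t => t % p) := by
        intro x hx
        rw [mem_filter] at hx
        have h3 : ¬ ∀ t ∈ T, t % p ≠ x := hx.2
        push Not at h3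
        obtain ⟨t, ht, htx⟩ := h3
        exact mem_image.2 ⟨t, ht, htx⟩
      exact_mod_cast (card_le_card h2).trans card_image_le
    have hup : u ≤ p / 2 := by
      have h1 : (2 * (T.card : ℝ)) ≤ p := by exact_mod_cast hpB hB
      linarith
    have hov : (ov T D p : ℝ) = ∑ x ∈ range p, (1 - a x) * (1 - a ((x + D) % p)) := by
      rw [ov, card_filter, Nat.cast_sum]
      refine sum_congr rfl fun x _ => ?_
      simp only [ha]
      by_cases h1 : av T p x <;> by_cases h2 : av T p ((x + D) % p) <;> simp [h1, h2]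
    have hsum1 : ∑ x ∈ range p, (if av T p x ∧ av T p ((x + D) % p) then
        Φ (∅ ∪ hit V B p x) (∅ ∪ hit V B p ((x + D) % p)) else 0) =
        ((p : ℝ) - 2 * u + ov T D p) * Φ₀ := by
      have h1 : ∀ x ∈ range p, (if av T p x ∧ av T p ((x + D) % p) then
          Φ (∅ ∪ hit V B p x) (∅ ∪ hit V B p ((x + D) % p)) else 0) =
          (1 - (1 - a x) - (1 - a ((x + D) % p)) + (1 - a x) * (1 - a ((x + D) % p))) * Φ₀ := by
        intro x _
        simp only [ha, hhit, union_empty]
        by_cases h1 : av T p x <;> by_cases h2 : av T p ((x + D) % p) <;> simp [h1, h2, hΦ₀]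
      rw [sum_congr rfl h1, ← sum_mul]
      congr 1
      rw [sum_add_distrib, sum_sub_distrib, sum_sub_distrib, hov,
        shift_sum p D hp (fun x => 1 - a x)]
      rw [sum_const, card_range, nsmul_eq_mul, mul_one]
      ring
    have hsum2 : ∑ x ∈ range p, ∑ x' ∈ range p, (if av T p x ∧ av T p x' then
        Φ (∅ ∪ hit V B p x) (∅ ∪ hit V B p x') else 0) = ((p : ℝ) - u) ^ 2 * Φ₀ := by
      have h1 : ∀ x ∈ range p, ∀ x' ∈ range p, (if av T p x ∧ av T p x' then
          Φ (∅ ∪ hit V B p x) (∅ ∪ hit V B p x') else 0) = (a x * a x') * Φ₀ := by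
        intro x _ x' _
        simp only [ha, hhit, union_empty]
        by_cases h1 : av T p x <;> by_cases h2 : av T p x' <;> simp [h1, h2, hΦ₀]
      rw [sum_congr rfl fun x hx => sum_congr rfl (h1 x hx)]
      have h2 : ∑ x ∈ range p, a x = p - u := by
        rw [hu, sum_sub_distrib, sum_const, card_range, nsmul_eq_mul, mul_one]
        ring
      rw [← h2, sq, sum_mul_sum, sum_mul]
      refine sum_congr rfl fun x _ => ?_
      rw [sum_mul]
    rw [hL, hRt, hsum1, hsum2, hcc]
    set o : ℝ := (ov T D p : ℝ) with ho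
    have ho0 : 0 ≤ o := Nat.cast_nonneg _
    have key : (1 / (p : ℝ)) * ((p : ℝ) - 2 * u + o) ≤
        (1 + 4 * o / p) * ((1 / (p : ℝ)) ^ 2 * ((p : ℝ) - u) ^ 2) := by
      set y : ℝ := u / p with hy
      set z : ℝ := o / p with hz
      have hy0 : 0 ≤ y := div_nonneg hu0 hpR.le
      have hz0 : 0 ≤ z := div_nonneg ho0 hpR.le
      have hy2 : y ≤ 1 / 2 := by
        rw [hy, div_le_iff₀ hpR]
        linarith
      have e1 : (1 / (p : ℝ)) * ((p : ℝ) - 2 * u + o) = 1 - 2 * y + z := by
        rw [hy, hz]
        field_simp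
      have e2 : (1 / (p : ℝ)) ^ 2 * ((p : ℝ) - u) ^ 2 = (1 - y) ^ 2 := by
        rw [hy, ← mul_pow]
        congr 1
        field_simp
      have e3 : 4 * o / p = 4 * z := by
        rw [hz]
        ring
      rw [e1, e2, e3]
      have h5 : 1 / 4 ≤ (1 - y) ^ 2 := by nlinarith
      nlinarith [mul_le_mul_of_nonneg_left h5 hz0, sq_nonneg y]
    calc (1 / (p : ℝ)) * (((p : ℝ) - 2 * u + o) * Φ₀) =
        ((1 / (p : ℝ)) * ((p : ℝ) - 2 * u + o)) * Φ₀ := by ring
      _ ≤ ((1 + 4 * o / p) * ((1 / (p : ℝ)) ^ 2 * ((p : ℝ) - u) ^ 2)) * Φ₀ :=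
          mul_le_mul_of_nonneg_right key hΦ₀0
      _ = _ := by ring
  · -- `p ∈ B`
    have hpw : w ≤ p := hR.B_ge p hB
    have hp8 : 8 * (H + 1) ≤ p := hR.w_ge.trans hpw
    have hp8R : 8 * ((H : ℝ) + 1) ≤ p := by exact_mod_cast hp8
    have hav : ∀ x < p, (av T p x ↔ x ∉ T) := by
      intro x hx
      constructor
      · intro h hxT
        exact h x hxT (Nat.mod_eq_of_lt hx)
      · intro h t ht htx
        have h1 := hR.T_le t ht
        rw [Nat.mod_eq_of_lt (by omega)] at htx
        subst htx
        exact h ht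
    have hhit : ∀ x < p, hit V B p x = if x ∈ V then {x} else ∅ := by
      intro x hx
      rw [hit, if_pos hB]
      ext v
      rw [mem_filter]
      constructor
      · rintro ⟨hv, hvx⟩
        have h1 := hR.V_le v hv
        rw [Nat.mod_eq_of_lt (by omega)] at hvx
        subst hvx
        rw [if_pos hv]
        exact mem_singleton_self _
      · intro hv
        split_ifs at hv with h
        · rw [mem_singleton] at hv
          subst hv
          exact ⟨h, Nat.mod_eq_of_lt hx⟩
        · exact absurd hv (notMem_empty _)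
    have hdisj : ∀ x, x ∈ T → x ∈ V → False := fun x h1 h2 =>
      (Finset.disjoint_left.1 hR.disj) h1 h2
    set tv : ℕ → ℝ := fun x => if x ∈ T ∪ V then 1 else 0 with htv
    set vv : ℕ → ℝ := fun x => if x ∈ V then 1 else 0 with hvv
    set s : ℝ := ((T ∪ V).card : ℝ) with hs
    have hs0 : 0 ≤ s := Nat.cast_nonneg _
    have hsH : s ≤ (H : ℝ) + 1 := by
      rw [hs]
      exact_mod_cast hTV
    have hstv : ∑ x ∈ range p, tv x = s := by
      simp only [htv]
      rw [hs, ← sum_filter, sum_const, nsmul_eq_mul, mul_one]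
      congr 2
      ext x
      rw [mem_filter, mem_range]
      constructor
      · exact fun h => h.2
      · intro h
        refine ⟨?_, h⟩
        rcases mem_union.1 h with h1 | h1
        · have := hR.T_le x h1
          omega
        · have := hR.V_le x h1
          omega
    have hsvv : ∑ x ∈ range p, vv x = V.card := by
      simp only [hvv]
      rw [← sum_filter, sum_const, nsmul_eq_mul, mul_one]
      congr 2
      ext x
      rw [mem_filter, mem_range]
      constructor
      · exact fun h => h.2
      · intro h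
        have := hR.V_le x h
        exact ⟨by omega, h⟩
    have hVs : ((V.card : ℕ) : ℝ) ≤ s := by
      rw [hs]
      exact_mod_cast card_le_card subset_union_right
    set A : ℝ := ∑ x ∈ range p, vv x * Φ {x} ∅ with hA
    set A' : ℝ := ∑ x ∈ range p, vv x * Φ ∅ {x} with hA'
    have hA0 : 0 ≤ A := sum_nonneg fun x _ => mul_nonneg (by simp only [hvv]; split_ifs <;> norm_num)
      (hΦ0 _ _)
    have hA0' : 0 ≤ A' := sum_nonneg fun x _ =>
      mul_nonneg (by simp only [hvv]; split_ifs <;> norm_num) (hΦ0 _ _)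
    have hA1 : A ≤ 2 * s * Φ₀ := by
      calc A ≤ ∑ x ∈ range p, vv x * (2 * Φ₀) := by
            refine sum_le_sum fun x _ => ?_
            simp only [hvv]
            split_ifs with h
            · have := hins1 ∅ ∅ x h
              rw [insert_empty_eq] at this
              linarith
            · simp
        _ = (V.card : ℝ) * (2 * Φ₀) := by rw [← sum_mul, hsvv]
        _ ≤ s * (2 * Φ₀) := mul_le_mul_of_nonneg_right hVs (by linarith)
        _ = _ := by ring
    have hA1' : A' ≤ 2 * s * Φ₀ := by
      calc A' ≤ ∑ x ∈ range p, vv x * (2 * Φ₀) := by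
            refine sum_le_sum fun x _ => ?_
            simp only [hvv]
            split_ifs with h
            · have := hins2 ∅ ∅ x h
              rw [insert_empty_eq] at this
              linarith
            · simp
        _ = (V.card : ℝ) * (2 * Φ₀) := by rw [← sum_mul, hsvv]
        _ ≤ s * (2 * Φ₀) := mul_le_mul_of_nonneg_right hVs (by linarith)
        _ = _ := by ring
    -- lower bound of the decoupled side
    have hlow : ((p : ℝ) - s) ^ 2 * Φ₀ + ((p : ℝ) - s) * (A + A') ≤
        ∑ x ∈ range p, ∑ x' ∈ range p, (if av T p x ∧ av T p x' then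
          Φ (∅ ∪ hit V B p x) (∅ ∪ hit V B p x') else 0) := by
      have h1 : ∀ x ∈ range p, ∀ x' ∈ range p,
          (1 - tv x) * (1 - tv x') * Φ₀ + (vv x * Φ {x} ∅) * (1 - tv x') +
            (1 - tv x) * (vv x' * Φ ∅ {x'}) ≤ (if av T p x ∧ av T p x' then
          Φ (∅ ∪ hit V B p x) (∅ ∪ hit V B p x') else 0) := by
        intro x hx x' hx'
        have hx := mem_range.1 hx
        have hx' := mem_range.1 hx'
        rw [hav x hx, hav x' hx', hhit x hx, hhit x' hx']
        simp only [htv, hvv, mem_union]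
        by_cases t1 : x ∈ T
        · have v1 : x ∉ V := fun h => hdisj x t1 h
          simp [t1, v1]
        · by_cases t2 : x' ∈ T
          · have v2 : x' ∉ V := fun h => hdisj x' t2 h
            simp [t2, v2]
          · by_cases v1 : x ∈ V
            · by_cases v2 : x' ∈ V
              · simp [t1, t2, v1, v2, hΦ0]
              · simp [t1, t2, v1, v2]
            · by_cases v2 : x' ∈ V
              · simp [t1, t2, v1, v2]
              · simp [t1, t2, v1, v2, hΦ₀]
      have h2 : ∑ x ∈ range p, ∑ x' ∈ range p, ((1 - tv x) * (1 - tv x') * Φ₀ +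
          (vv x * Φ {x} ∅) * (1 - tv x') + (1 - tv x) * (vv x' * Φ ∅ {x'})) =
          ((p : ℝ) - s) ^ 2 * Φ₀ + ((p : ℝ) - s) * (A + A') := by
        have h3 : ∑ x ∈ range p, (1 - tv x) = p - s := by
          rw [sum_sub_distrib, hstv, sum_const, card_range, nsmul_eq_mul, mul_one]
        simp only [sum_add_distrib]
        have h4 : ∑ x ∈ range p, ∑ x' ∈ range p, (1 - tv x) * (1 - tv x') * Φ₀ =
            ((p : ℝ) - s) ^ 2 * Φ₀ := by
          rw [← h3, sq, sum_mul_sum, sum_mul]
          refine sum_congr rfl fun x _ => ?_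
          rw [sum_mul]
        have h5 : ∑ x ∈ range p, ∑ x' ∈ range p, (vv x * Φ {x} ∅) * (1 - tv x') =
            A * ((p : ℝ) - s) := by
          rw [← h3, hA, sum_mul_sum]
        have h6 : ∑ x ∈ range p, ∑ x' ∈ range p, (1 - tv x) * (vv x' * Φ ∅ {x'}) =
            ((p : ℝ) - s) * A' := by
          rw [← h3, hA', sum_mul_sum]
        rw [h4, h5, h6]
        ring
      rw [← h2]
      exact sum_le_sum fun x hx => sum_le_sum fun x' hx' => h1 x hx x' hx'
    set q : ℝ := s / p with hq
    have hq0 : 0 ≤ q := div_nonneg hs0 hpR.le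
    have hq8 : q ≤ 1 / 8 := by
      rw [hq, div_le_iff₀ hpR]
      linarith
    have hE : (1 - q) ^ 2 * Φ₀ + (1 - q) * ((A + A') / p) ≤
        J T V B (insert p U) D (p :: l) ∅ ∅ := by
      rw [hRt]
      have h1 := mul_le_mul_of_nonneg_left hlow (by positivity : (0 : ℝ) ≤ (1 / (p : ℝ)) ^ 2)
      refine le_trans (le_of_eq ?_) h1
      rw [hq]
      field_simp
    by_cases hcol : Col H D p
    · -- collisions
      have hcc : cc T B H D p = 8 * ((H : ℝ) + 1) ^ 2 / (p : ℝ) ^ 2 + 32 * ((H : ℝ) + 1) / p := by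
        rw [cc, if_pos hB, if_pos hcol]
      have hup : ∑ x ∈ range p, (if av T p x ∧ av T p ((x + D) % p) then
          Φ (∅ ∪ hit V B p x) (∅ ∪ hit V B p ((x + D) % p)) else 0) ≤ ((p : ℝ) + 6 * s) * Φ₀ := by
        have h1 : ∀ x ∈ range p, (if av T p x ∧ av T p ((x + D) % p) then
            Φ (∅ ∪ hit V B p x) (∅ ∪ hit V B p ((x + D) % p)) else 0) ≤
            (1 + 3 * vv x + 3 * vv ((x + D) % p)) * Φ₀ := by
          intro x hx
          have hx := mem_range.1 hx
          have hx' : (x + D) % p < p := Nat.mod_lt _ hp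
          rw [hhit x hx, hhit _ hx']
          generalize (x + D) % p = x' at *
          have h2 : 0 ≤ (1 + 3 * vv x + 3 * vv x') * Φ₀ := by
            refine mul_nonneg ?_ hΦ₀0
            simp only [hvv]
            split_ifs <;> norm_num
          split_ifs with h3 h4 h5 h5
          · simp only [hvv, if_pos h4, if_pos h5, empty_union]
            have e1 := hins1 ∅ {x'} x h4
            have e2 := hins2 ∅ ∅ x' h5
            rw [insert_empty_eq] at e1 e2
            linarith
          · simp only [hvv, if_pos h4, if_neg h5, empty_union]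
            have e1 := hins1 ∅ ∅ x h4
            rw [insert_empty_eq] at e1
            linarith
          · simp only [hvv, if_neg h4, if_pos h5, empty_union]
            have e2 := hins2 ∅ ∅ x' h5
            rw [insert_empty_eq] at e2
            linarith
          · simp only [hvv, if_neg h4, if_neg h5, empty_union]
            linarith
          · exact h2
        calc _ ≤ ∑ x ∈ range p, (1 + 3 * vv x + 3 * vv ((x + D) % p)) * Φ₀ := sum_le_sum h1
          _ = ((p : ℝ) + 6 * V.card) * Φ₀ := by
              rw [← sum_mul]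
              congr 1
              rw [sum_add_distrib, sum_add_distrib, ← mul_sum, ← mul_sum,
                shift_sum p D hp vv, hsvv, sum_const, card_range, nsmul_eq_mul, mul_one]
              ring
          _ ≤ _ := mul_le_mul_of_nonneg_right (by linarith) hΦ₀0
      have hC : J T V B U D (p :: l) ∅ ∅ ≤ (1 + 6 * q) * Φ₀ := by
        rw [hL]
        have h1 := mul_le_mul_of_nonneg_left hup (by positivity : (0 : ℝ) ≤ 1 / (p : ℝ))
        refine h1.trans (le_of_eq ?_)
        rw [hq]
        field_simp
      have hccq : 32 * q ≤ cc T B H D p := by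
        rw [hcc]
        have h1 : 32 * q ≤ 32 * ((H : ℝ) + 1) / p := by
          rw [hq, ← mul_div_assoc, div_le_div_iff_of_pos_right hpR]
          linarith
        have h2 : 0 ≤ 8 * ((H : ℝ) + 1) ^ 2 / (p : ℝ) ^ 2 := by positivity
        linarith
      have hE' : (1 - q) ^ 2 * Φ₀ ≤ J T V B (insert p U) D (p :: l) ∅ ∅ := by
        refine le_trans ?_ hE
        have : 0 ≤ (1 - q) * ((A + A') / p) :=
          mul_nonneg (by linarith) (div_nonneg (by linarith) hpR.le)
        linarith
      calc J T V B U D (p :: l) ∅ ∅ ≤ (1 + 6 * q) * Φ₀ := hC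
        _ ≤ ((1 + 32 * q) * (1 - q) ^ 2) * Φ₀ := by
            refine mul_le_mul_of_nonneg_right ?_ hΦ₀0
            nlinarith [mul_nonneg hq0 hq0, mul_nonneg hq0 (mul_nonneg hq0 hq0)]
        _ = (1 + 32 * q) * ((1 - q) ^ 2 * Φ₀) := by ring
        _ ≤ (1 + cc T B H D p) * ((1 - q) ^ 2 * Φ₀) :=
            mul_le_mul_of_nonneg_right (by linarith) (mul_nonneg (sq_nonneg _) hΦ₀0)
        _ ≤ _ := mul_le_mul_of_nonneg_left hE' (by linarith)
    · -- no collisions
      have hcc : cc T B H D p = 8 * ((H : ℝ) + 1) ^ 2 / (p : ℝ) ^ 2 := by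
        rw [cc, if_pos hB, if_neg hcol, add_zero]
      have hup : ∑ x ∈ range p, (if av T p x ∧ av T p ((x + D) % p) then
          Φ (∅ ∪ hit V B p x) (∅ ∪ hit V B p ((x + D) % p)) else 0) ≤
          ((p : ℝ) - 2 * s) * Φ₀ + (A + A') := by
        have h1 : ∀ x ∈ range p, (if av T p x ∧ av T p ((x + D) % p) then
            Φ (∅ ∪ hit V B p x) (∅ ∪ hit V B p ((x + D) % p)) else 0) ≤
            (1 - tv x - tv ((x + D) % p)) * Φ₀ + vv x * Φ {x} ∅ +
              vv ((x + D) % p) * Φ ∅ {(x + D) % p} := by
          intro x hx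
          have hx := mem_range.1 hx
          have hx' : (x + D) % p < p := Nat.mod_lt _ hp
          have hno : ¬ (x ≤ H ∧ (x + D) % p ≤ H) := fun h => hcol ⟨x, h.1, _, h.2, rfl⟩
          rw [hhit x hx, hhit _ hx', hav x hx, hav _ hx']
          generalize (x + D) % p = x' at *
          have n1 : x ∈ T ∪ V → x' ∉ T ∪ V := by
            intro h h'
            apply hno
            constructor
            · rcases mem_union.1 h with h | h
              · exact hR.T_le x h
              · exact hR.V_le x h
            · rcases mem_union.1 h' with h | h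
              · exact hR.T_le x' h
              · exact hR.V_le x' h
          rw [mem_union, mem_union] at n1
          simp only [htv, hvv, mem_union]
          by_cases t1 : x ∈ T
          · have v1 : x ∉ V := fun h => hdisj x t1 h
            have n2 := n1 (Or.inl t1)
            rw [not_or] at n2
            simp [t1, v1, n2.1, n2.2]
          · by_cases v1 : x ∈ V
            · have n2 := n1 (Or.inr v1)
              rw [not_or] at n2
              simp [t1, v1, n2.1, n2.2]
            · by_cases t2 : x' ∈ T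
              · have v2 : x' ∉ V := fun h => hdisj x' t2 h
                simp [t1, v1, t2, v2]
              · by_cases v2 : x' ∈ V
                · simp [t1, v1, t2, v2]
                · simp [t1, v1, t2, v2, hΦ₀]
        refine (sum_le_sum h1).trans (le_of_eq ?_)
        rw [sum_add_distrib, sum_add_distrib, ← sum_mul, sum_sub_distrib, sum_sub_distrib,
          shift_sum p D hp tv, hstv, sum_const, card_range, nsmul_eq_mul, mul_one,
          shift_sum p D hp (fun x' => vv x' * Φ ∅ {x'})]
        ring
      have hC : J T V B U D (p :: l) ∅ ∅ ≤ (1 - 2 * q) * Φ₀ + (A + A') / p := by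
        rw [hL]
        have h1 := mul_le_mul_of_nonneg_left hup (by positivity : (0 : ℝ) ≤ 1 / (p : ℝ))
        refine h1.trans (le_of_eq ?_)
        rw [hq]
        field_simp
      set E : ℝ := J T V B (insert p U) D (p :: l) ∅ ∅ with hEdef
      have hAp : (A + A') / p ≤ 4 * q * Φ₀ := by
        rw [div_le_iff₀ hpR]
        have h1 : 4 * q * Φ₀ * p = 4 * s * Φ₀ := by
          rw [hq]
          field_simp
        rw [h1]
        linarith
      have hAp0 : 0 ≤ (A + A') / p := div_nonneg (by linarith) hpR.le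
      have hEh : Φ₀ / 2 ≤ E := by
        refine le_trans ?_ hE
        have h1 : 0 ≤ (1 - q) * ((A + A') / p) := mul_nonneg (by linarith) hAp0
        have h2 : 1 / 2 * Φ₀ ≤ (1 - q) ^ 2 * Φ₀ :=
          mul_le_mul_of_nonneg_right (by nlinarith) hΦ₀0
        linarith
      have hq2 : 8 * q ^ 2 ≤ cc T B H D p := by
        rw [hcc, hq, div_pow, ← mul_div_assoc, div_le_div_iff_of_pos_right (by positivity)]
        have : s ^ 2 ≤ ((H : ℝ) + 1) ^ 2 := pow_le_pow_left₀ hs0 hsH 2
        linarith
      have hqA : q * ((A + A') / p) ≤ 4 * q ^ 2 * Φ₀ := by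
        have := mul_le_mul_of_nonneg_left hAp hq0
        nlinarith
      have h8 : 4 * q ^ 2 * Φ₀ ≤ 8 * q ^ 2 * E := by
        have := mul_le_mul_of_nonneg_left hEh (by positivity : (0 : ℝ) ≤ 8 * q ^ 2)
        nlinarith
      have h9 : 0 ≤ q ^ 2 * Φ₀ := mul_nonneg (sq_nonneg _) hΦ₀0
      have hE0 : 0 ≤ E := by linarith
      have h10 : 8 * q ^ 2 * E ≤ cc T B H D p * E := mul_le_mul_of_nonneg_right hq2 hE0
      nlinarith

end Pool.Agent.V5helper31.LR
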